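import Pool.Agent.W96.CL.Stm

/-!
# CL-ORD: the ordering of the zeros for all angles
-/

set_option autoImplicit false

open Polynomial Filter Topology

namespace W96CL

section Ord

/-- joint continuity of the value of a polynomial with continuous coefficients -/
lemma k976_eval_cont {S : Type*} [TopologicalSpace S] (d : ℕ) (P : S → ℝ[X])
    (hd : ∀ s, (P s).natDegree ≤ d) (hc : ∀ k, Continuous fun s => (P s).coeff k)
    (y : S → ℝ) (hy : Continuous y) : Continuous fun s => (P s).eval (y s) := by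
  have : (fun s => (P s).eval (y s)) =
      fun s => ∑ k ∈ Finset.range (d + 1), (P s).coeff k * y s ^ k := by
    funext s
    exact Polynomial.eval_eq_sum_range' (Nat.lt_succ_of_le (hd s)) (y s)
  rw [this]
  exact continuous_finsetSum _ fun k _ => (hc k).mul (hy.pow k)

/-- the signs of `t` on the positive real line -/
lemma k976_sign {t t1 : ℝ[X]} {z0 : ℝ} (h0 : t.coeff 0 < 0)
    (h : t = (X - C (Real.exp z0)) * (X - C (Real.exp (-z0))) * t1)
    (h1 : ∀ z : ℂ, |z.im| ≤ Real.pi / 3 → aeval (Complex.exp z) t1 ≠ 0) :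
    ∀ x : ℝ, 0 < x → t1.eval x < 0 := by
  have hne : ∀ x : ℝ, 0 < x → t1.eval x ≠ 0 := by
    intro x hx h2
    apply h1 (Real.log x)
    · rw [Complex.ofReal_im, abs_zero]
      positivity
    · rw [← Complex.ofReal_exp, Real.exp_log hx]
      have := Polynomial.aeval_algebraMap_apply_eq_algebraMap_eval (A := ℂ) x t1
      rw [h2, map_zero] at this
      exact this
  have h3 : t1.eval 0 < 0 := by
    have h4 := congrArg (Polynomial.eval 0) h
    rw [← coeff_zero_eq_eval_zero] at h4
    simp only [eval_mul, eval_sub, eval_X, eval_C, zero_sub] at h4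
    have h5 : -Real.exp z0 * -Real.exp (-z0) = 1 := by
      rw [neg_mul_neg, ← Real.exp_add, add_neg_cancel, Real.exp_zero]
    rw [h5, one_mul] at h4
    linarith
  intro x hx
  by_contra hcon
  push Not at hcon
  have h4 : 0 < t1.eval x := lt_of_le_of_ne hcon (Ne.symm (hne x hx))
  have h5 := intermediate_value_Icc hx.le (f := fun y => t1.eval y) t1.continuous.continuousOn
  obtain ⟨c, ⟨hc1, hc2⟩, hc3⟩ := h5 ⟨h3.le, h4.le⟩
  have hc0 : c ≠ 0 := by
    rintro rfl
    dsimp only at hc3
    linarith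
  exact hne c (lt_of_le_of_ne hc1 (Ne.symm hc0)) hc3

/-- the largest zero separates the signs -/
lemma k976_sign2 {n : ℕ} {θ z0 : ℝ} {t Q : ℝ[X]} (h0 : t.coeff 0 = -2) (hz : Zer n θ t Q z0)
    (x : ℝ) (hx : 1 ≤ x) :
    (x < Real.exp z0 → 0 < t.eval x) ∧ (Real.exp z0 < x → t.eval x < 0) := by
  obtain ⟨t1, h, h1⟩ := hz.tfac
  have h2 := k976_sign (by rw [h0]; norm_num) h h1 x (by linarith)
  have h3 : Real.exp (-z0) < 1 := by
    rw [Real.exp_lt_one_iff]
    linarith [hz.z0pos]
  have h4 : t.eval x = (x - Real.exp z0) * (x - Real.exp (-z0)) * t1.eval x := by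
    rw [h]
    simp
  have h5 : 0 < x - Real.exp (-z0) := by linarith
  constructor
  · intro h6
    rw [h4]
    have : (x - Real.exp z0) * (x - Real.exp (-z0)) < 0 := mul_neg_of_neg_of_pos (by linarith) h5
    exact mul_pos_of_neg_of_neg this h2
  · intro h6
    rw [h4]
    have : 0 < (x - Real.exp z0) * (x - Real.exp (-z0)) := mul_pos (by linarith) h5
    exact mul_neg_of_pos_of_neg this h2

/-- continuity of the largest zero of `t` -/
lemma k976_z_cont {S : Type*} [TopologicalSpace S] (n : ℕ) (θ : S → ℝ) (t Q : S → ℝ[X])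
    (z : S → ℝ) (hd : ∀ s, (t s).natDegree ≤ 4 * n) (h0 : ∀ s, (t s).coeff 0 = -2)
    (hc : ∀ k, Continuous fun s => (t s).coeff k) (hz : ∀ s, Zer n (θ s) (t s) (Q s) (z s)) :
    Continuous fun s => Real.exp (z s) := by
  rw [continuous_iff_continuousAt]
  intro s0
  have hev : ∀ x : ℝ, Continuous fun s => (t s).eval x := fun x =>
    k976_eval_cont (4 * n) t hd hc (fun _ => x) continuous_const
  have hx1 : 1 < Real.exp (z s0) := Real.one_lt_exp_iff.2 (hz s0).z0pos
  rw [ContinuousAt, Metric.tendsto_nhds]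
  intro ε hε
  set x1 := max 1 (Real.exp (z s0) - ε / 2) with hx1d
  set x2 := Real.exp (z s0) + ε / 2 with hx2d
  have a1 : 0 < (t s0).eval x1 := (k976_sign2 (h0 s0) (hz s0) x1 (le_max_left _ _)).1
    (max_lt hx1 (by linarith))
  have a2 : (t s0).eval x2 < 0 := (k976_sign2 (h0 s0) (hz s0) x2 (by linarith)).2 (by linarith)
  filter_upwards [((hev x1).continuousAt.eventually (lt_mem_nhds a1)),
    ((hev x2).continuousAt.eventually (gt_mem_nhds a2))] with s b1 b2
  have c1 : x1 ≤ Real.exp (z s) := by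
    by_contra hcon
    push Not at hcon
    have := (k976_sign2 (h0 s) (hz s) x1 (le_max_left _ _)).2 hcon
    linarith
  have c2 : Real.exp (z s) ≤ x2 := by
    by_contra hcon
    push Not at hcon
    have := (k976_sign2 (h0 s) (hz s) x2 (by linarith)).1 hcon
    linarith
  have c3 : Real.exp (z s0) - ε / 2 ≤ x1 := le_max_right _ _
  rw [Real.dist_eq, abs_lt]
  constructor <;> linarith

/-- if the ordering fails then it fails strictly -/
lemma k976_fail {n : ℕ} {θ z0 : ℝ} {t Q : ℝ[X]} (hm : Q.Monic) (hdeg : Q.natDegree = 2 * n)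
    (hn : 1 ≤ n) (hz : Zer n θ t Q z0) (h : ¬ Ord t Q z0) :
    ∃ y, Real.exp z0 < y ∧ Q.eval y < 0 := by
  unfold Ord at h
  push Not at h
  obtain ⟨y0, hy0, hQ0⟩ := h
  rcases lt_or_eq_of_le hQ0 with hlt | heq
  · rcases lt_or_eq_of_le hy0 with h1 | h1
    · exact ⟨y0, h1, hlt⟩
    · -- move a little to the right
      have hc : ContinuousAt (fun y => Q.eval y) y0 := Q.continuous.continuousAt
      have h2 := hc.eventually (gt_mem_nhds hlt)
      have h3 : ∀ᶠ y in 𝓝[>] y0, Q.eval y < 0 := h2.filter_mono nhdsWithin_le_nhds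
      obtain ⟨y, hy1, hy2⟩ := (h3.and self_mem_nhdsWithin).exists
      exact ⟨y, by rw [h1]; exact hy2, hy1⟩
  · -- a zero of `Q`
    obtain ⟨Q1, hQ1, hsep, hroots⟩ := hz.Qfac
    have hy0pos : 0 < y0 := lt_of_lt_of_le (Real.exp_pos _) hy0
    have hQ10 : Q1.eval y0 = 0 := by
      rw [hQ1, eval_mul] at heq
      rcases mul_eq_zero.1 heq with h1 | h1
      · simp at h1
        linarith
      · exact h1
    have hC0 : aeval (y0 : ℂ) Q1 = 0 := by
      have := Polynomial.aeval_algebraMap_apply_eq_algebraMap_eval (A := ℂ) y0 Q1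
      rw [hQ10, map_zero] at this
      exact this
    obtain ⟨a, ha0, ha1, ha2, ha3⟩ := hroots _ hC0
    have ha : a = y0 := by exact_mod_cast ha3.symm
    subst ha
    have hgt : Real.exp z0 < a := lt_of_le_of_ne hy0 (Ne.symm ha1)
    have hder : Q.derivative.eval a ≠ 0 := by
      rw [hQ1, derivative_mul, eval_add, eval_mul, eval_mul, hQ10, mul_zero, zero_add]
      refine mul_ne_zero ?_ ?_
      · simp
        linarith
      · have := hsep.eval₂_derivative_ne_zero (RingHom.id ℝ) (x := a) (by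
          rw [eval₂_id]; exact hQ10)
        rwa [eval₂_id] at this
    have hda : HasDerivAt (fun y => Q.eval y) (Q.derivative.eval a) a := Q.hasDerivAt a
    rcases lt_or_gt_of_ne hder with hd | hd
    · -- decreasing: take a point to the right
      have h1 := hda.tendsto_slope
      have h2 : ∀ᶠ y in 𝓝[≠] a, slope (fun y => Q.eval y) a y < 0 :=
        h1.eventually (gt_mem_nhds hd)
      have h3 : ∀ᶠ y in 𝓝[>] a, slope (fun y => Q.eval y) a y < 0 :=
        h2.filter_mono (nhdsWithin_mono _ fun y hy => ne_of_gt hy)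
      obtain ⟨y, hy1, hy2⟩ := (h3.and self_mem_nhdsWithin).exists
      have hy3 : a < y := hy2
      refine ⟨y, by linarith, ?_⟩
      rw [slope_def_field, heq, sub_zero] at hy1
      have := (div_neg_iff.1 hy1)
      rcases this with ⟨_, h⟩ | ⟨h, _⟩
      · linarith
      · exact h
    · -- increasing: take a point to the left
      have h1 := hda.tendsto_slope
      have h2 : ∀ᶠ y in 𝓝[≠] a, 0 < slope (fun y => Q.eval y) a y :=
        h1.eventually (lt_mem_nhds hd)
      have h3 : ∀ᶠ y in 𝓝[<] a, 0 < slope (fun y => Q.eval y) a y :=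
        h2.filter_mono (nhdsWithin_mono _ fun y hy => ne_of_lt hy)
      have h4 : ∀ᶠ y in 𝓝[<] a, Real.exp z0 < y :=
        (lt_mem_nhds hgt : ∀ᶠ y in 𝓝 a, Real.exp z0 < y).filter_mono nhdsWithin_le_nhds
      obtain ⟨y, ⟨hy1, hy2⟩, hy4⟩ := ((h3.and self_mem_nhdsWithin).and h4).exists
      have hy3 : y < a := hy2
      refine ⟨y, hy4, ?_⟩
      rw [slope_def_field, heq, sub_zero] at hy1
      rcases div_pos_iff.1 hy1 with ⟨_, h⟩ | ⟨h, _⟩
      · linarith
      · exact h

/-- the reversed polynomial -/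
lemma k976_rev {Q : ℝ[X]} {d : ℕ} (hd : Q.natDegree ≤ d) {y : ℝ} (hy : 0 < y) :
    ∑ k ∈ Finset.range (d + 1), Q.coeff k * (1 / y) ^ (d - k) = Q.eval y / y ^ d := by
  rw [Polynomial.eval_eq_sum_range' (Nat.lt_succ_of_le hd) y, Finset.sum_div]
  refine Finset.sum_congr rfl fun k hk => ?_
  have hk' : k ≤ d := by
    have := Finset.mem_range.1 hk
    omega
  have : y ^ d = y ^ (d - k) * y ^ k := by rw [← pow_add]; congr 1; omega
  rw [this, one_div, inv_pow]
  field_simp

/-- the ordering in compact form -/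
lemma k976_ord_iff {n : ℕ} {t Q : ℝ[X]} {z0 : ℝ} (hm : Q.Monic) (hdeg : Q.natDegree = 2 * n) :
    Ord t Q z0 ↔ ∀ τ ∈ Set.Icc (0 : ℝ) 1,
      0 < ∑ k ∈ Finset.range (2 * n + 1), Q.coeff k * (τ / Real.exp z0) ^ (2 * n - k) := by
  constructor
  · intro h τ hτ
    rcases eq_or_lt_of_le hτ.1 with h0 | h0
    · rw [← h0, Finset.sum_eq_single (2 * n)]
      · have : Q.coeff (2 * n) = 1 := by rw [← hdeg]; exact hm
        rw [this]
        simp
      · intro k hk hk2
        have := Finset.mem_range.1 hk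
        rw [zero_div, zero_pow (by omega), mul_zero]
      · intro h1
        exact absurd (Finset.mem_range.2 (by omega)) h1
    · have hy : 0 < Real.exp z0 / τ := by positivity
      have h1 := k976_rev hdeg.le hy
      rw [one_div_div] at h1
      rw [h1]
      refine div_pos (h _ ?_) (by positivity)
      rw [le_div_iff₀ h0]
      nlinarith [hτ.2, Real.exp_pos z0]
  · intro h y hy
    have hy0 : 0 < y := lt_of_lt_of_le (Real.exp_pos _) hy
    have h1 := h (Real.exp z0 / y) ⟨by positivity, by rw [div_le_one hy0]; exact hy⟩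
    have h2 := k976_rev hdeg.le hy0
    have h3 : Real.exp z0 / y / Real.exp z0 = 1 / y := by
      field_simp
    rw [h3, h2] at h1
    by_contra hcon
    push Not at hcon
    have := div_nonpos_of_nonpos_of_nonneg hcon (pow_nonneg hy0.le (2 * n))
    linarith

end Ord

/-- **CL-ORD** -/
theorem cl_ord : S_ord := by
  intro n t Q lam z hn hF hP hQc hZ hnear θ hθ
  set S : Set ℝ := Set.Ioo 0 (Real.pi / 3) with hS
  have hsub : S ⊆ Set.Ioc 0 (Real.pi / 3) := Set.Ioo_subset_Ioc_self
  have : PreconnectedSpace S := Subtype.preconnectedSpace isPreconnected_Ioo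
  have htc : ∀ k, Continuous fun s : S => (t s).coeff k := fun k =>
    continuousOn_iff_continuous_domRestrict.1 ((hF.cont k).mono hsub)
  have hQc' : ∀ k, Continuous fun s : S => (Q s).coeff k := fun k =>
    continuousOn_iff_continuous_domRestrict.1 ((hQc k).mono hsub)
  have hrel : ∀ s : S, Rel n s (t s) := fun s => hF.rel s s.2.1 s.2.2.le
  have hp : ∀ s : S, P1 n s (t s) (Q s) := fun s => hP s (hsub s.2)
  have hzer : ∀ s : S, Zer n s (t s) (Q s) (z s) := fun s => hZ s s.2
  have hzc : Continuous fun s : S => Real.exp (z s) :=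
    k976_z_cont n (fun s : S => (s : ℝ)) (fun s : S => t s) (fun s : S => Q s) (fun s : S => z s)
      (fun s => (hrel s).deg) (fun s => (hrel s).zero) htc hzer
  set G : Set S := {s | Ord (t s) (Q s) (z s)} with hG
  have hopen : IsOpen G := by
    rw [isOpen_iff_mem_nhds]
    intro s0 hs0
    set Φ : S × ℝ → ℝ := fun p => ∑ k ∈ Finset.range (2 * n + 1), (Q p.1).coeff k *
      (p.2 / Real.exp (z p.1)) ^ (2 * n - k) with hΦ
    have hΦc : Continuous Φ := by
      refine continuous_finsetSum _ fun k _ => ?_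
      refine ((hQc' k).comp continuous_fst).mul (Continuous.pow ?_ _)
      exact continuous_snd.div (hzc.comp continuous_fst) fun p => (Real.exp_pos _).ne'
    have hN : IsOpen (Φ ⁻¹' Set.Ioi 0) := isOpen_Ioi.preimage hΦc
    have hsub2 : ({s0} : Set S) ×ˢ (Set.Icc (0 : ℝ) 1) ⊆ Φ ⁻¹' Set.Ioi 0 := by
      rintro ⟨s, τ⟩ ⟨hs, hτ⟩
      rw [Set.mem_singleton_iff] at hs
      subst hs
      exact (k976_ord_iff (t := t s) (hp s).monic (hp s).deg).1 hs0 τ hτ
    obtain ⟨u, v, hu, -, hsu, hτv, huv⟩ := generalized_tube_lemma isCompact_singleton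
      isCompact_Icc hN hsub2
    refine mem_nhds_iff.2 ⟨u, ?_, hu, hsu (Set.mem_singleton s0)⟩
    intro s hs
    refine (k976_ord_iff (t := t s) (hp s).monic (hp s).deg).2 fun τ hτ => ?_
    have h : (s, τ) ∈ Φ ⁻¹' Set.Ioi 0 := huv ⟨hs, hτv hτ⟩
    exact h
  have hclosed : IsClosed G := by
    rw [← isOpen_compl_iff, isOpen_iff_mem_nhds]
    intro s0 hs0
    obtain ⟨y, hy1, hy2⟩ := k976_fail (hp s0).monic (hp s0).deg hn (hzer s0) hs0
    have hev : Continuous fun s : S => (Q s).eval y :=
      k976_eval_cont (2 * n) (fun s : S => Q s) (fun s => (hp s).deg.le) hQc' (fun _ => y)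
        continuous_const
    filter_upwards [hev.continuousAt.eventually (gt_mem_nhds hy2),
      hzc.continuousAt.eventually (gt_mem_nhds hy1)] with s h1 h2 h3
    have := h3 y h2.le
    linarith
  have hne : G.Nonempty := by
    obtain ⟨δ, hδ, hd⟩ := hnear
    have hpi := Real.pi_pos
    refine ⟨⟨Real.pi / 3 - min (δ / 2) (Real.pi / 6), ?_, ?_⟩, ?_⟩
    · have := min_le_right (δ / 2) (Real.pi / 6)
      linarith
    · have : 0 < min (δ / 2) (Real.pi / 6) := lt_min (by linarith) (by linarith)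
      linarith
    · have h1 := min_le_right (δ / 2) (Real.pi / 6)
      have h2 := min_le_left (δ / 2) (Real.pi / 6)
      have h3 : 0 < min (δ / 2) (Real.pi / 6) := lt_min (by linarith) (by linarith)
      exact hd _ (by linarith) (by linarith) (by linarith)
  have huniv := IsClopen.eq_univ ⟨hclosed, hopen⟩ hne
  have : (⟨θ, hθ⟩ : S) ∈ G := by rw [huniv]; trivial
  exact this

end W96CL
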