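import Pool.Agent.W976.CL.Near1
import Pool.Agent.W976.CL.ORD

/-!
# CL-NEAR: the ordering of the zeros near `θ = pi / 3`, end of the proof
-/

set_option autoImplicit false

open Polynomial Filter Topology

namespace W96CL

section Near2

lemma k976_tzero {n : ℕ} {θ z0 : ℝ} {t Q : ℝ[X]} (hz : Zer n θ t Q z0) :
    t.eval (Real.exp z0) = 0 ∧ t.eval (Real.exp (-z0)) = 0 := by
  obtain ⟨t1, h, -⟩ := hz.tfac
  rw [h]
  simp

lemma k976_lower {n : ℕ} {t Q : ℝ → ℝ[X]} {lam z : ℝ → ℝ} (hn : 1 ≤ n) (hF : Fam n t lam)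
    (hZ : ∀ θ ∈ Set.Ioo 0 (Real.pi / 3), Zer n θ (t θ) (Q θ) (z θ)) :
    Tendsto (fun θ => Real.exp (z θ)) (𝓝[Set.Ioo 0 (Real.pi / 3)] (Real.pi / 3)) (𝓝 1) ∧
    ∃ c : ℝ, 0 < c ∧ ∀ᶠ θ in 𝓝[Set.Ioo 0 (Real.pi / 3)] (Real.pi / 3),
      c * (Real.pi / 3 - θ) ≤ z θ ^ 2 := by
  set F := 𝓝[Set.Ioo 0 (Real.pi / 3)] (Real.pi / 3) with hFd
  have hpi := Real.pi_pos
  have hmem : ∀ᶠ θ in F, θ ∈ Set.Ioo 0 (Real.pi / 3) := self_mem_nhdsWithin
  have hco : ∀ k, Tendsto (fun θ => (t θ).coeff k) F (𝓝 ((t (Real.pi / 3)).coeff k)) := by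
    intro k
    exact (hF.cont k (Real.pi / 3) ⟨by positivity, le_rfl⟩).mono_left
      (nhdsWithin_mono _ Set.Ioo_subset_Ioc_self)
  have hdeg : ∀ᶠ θ in F, (t θ).natDegree ≤ 4 * n := by
    filter_upwards [hmem] with θ hθ
    exact (hF.rel θ hθ.1 hθ.2.le).deg
  have hdeg0 : (t (Real.pi / 3)).natDegree ≤ 4 * n :=
    (hF.rel (Real.pi / 3) (by positivity) le_rfl).deg
  have hx : Tendsto (fun θ => Real.exp (z θ)) F (𝓝 1) := by
    rw [Metric.tendsto_nhds]
    intro ε hε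
    obtain ⟨κ, hκ, hb⟩ := k976_base_t n hn ε hε
    rw [← hF.base] at hb
    filter_upwards [hmem, k976_roots_near t (t (Real.pi / 3)) hdeg hdeg0 hco ε κ hκ hb] with θ hθ h
    rw [Real.dist_eq]
    exact h _ (Real.exp_pos _) (k976_tzero (hZ θ hθ)).1
  refine ⟨hx, ?_⟩
  obtain ⟨c, hc, hlow⟩ := hF.low
  set M : ℝ := ∑ k ∈ Finset.range (4 * n + 1), |(t (Real.pi / 3)).coeff k| + 1 with hM
  have hM0 : 0 < M := by positivity
  have hsum : ∀ᶠ θ in F, ∑ k ∈ Finset.range (4 * n + 1), |(t θ).coeff k| < M := by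
    have h1 : Tendsto (fun θ => ∑ k ∈ Finset.range (4 * n + 1), |(t θ).coeff k|) F
        (𝓝 (∑ k ∈ Finset.range (4 * n + 1), |(t (Real.pi / 3)).coeff k|)) :=
      tendsto_finsetSum _ fun k _ => (hco k).abs
    exact h1.eventually (gt_mem_nhds (by linarith))
  have hn0 : (0 : ℝ) < n := by exact_mod_cast hn
  set E : ℝ := Real.exp (2 * (n : ℝ) ^ 2) with hE
  have hE0 : 0 < E := Real.exp_pos _
  have hid : Tendsto (fun θ : ℝ => θ) F (𝓝 (Real.pi / 3)) := tendsto_id.mono_left nhdsWithin_le_nhds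
  have hclose : ∀ᶠ θ in F, Real.pi / 3 - c / (4 * M * n ^ 2) < θ :=
    hid.eventually (lt_mem_nhds (by
      have : 0 < c / (4 * M * n ^ 2) := by positivity
      linarith))
  have hclose2 : ∀ᶠ θ in F, Real.pi / 6 < θ :=
    hid.eventually (lt_mem_nhds (by linarith))
  have hxe : ∀ᶠ θ in F, Real.exp (z θ) < Real.exp 1 :=
    hx.eventually (gt_mem_nhds (Real.one_lt_exp_iff.2 one_pos))
  refine ⟨c / (4 * M * n ^ 2 * E), by positivity, ?_⟩
  filter_upwards [hmem, hdeg, hsum, hclose, hclose2, hxe] with θ hθ hd hs h1 h2 h3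
  have hz := hZ θ hθ
  have hz0 := hz.z0pos
  have hz1 : z θ ≤ 1 := (Real.exp_lt_exp.1 h3).le
  set e : ℝ := Real.pi / 3 - θ with he
  have he0 : 0 < e := by have := hθ.2; linarith
  have hl := hlow θ h2.le hθ.2
  have q1 := k976_eq1 hd (hF.val θ hθ.1 hθ.2)
  have q2 := k976_eq2 hd (k976_tzero hz).1 (k976_tzero hz).2
  rw [← he] at q1
  have hcos1 : 1 / 2 ≤ Real.cos θ := by
    rw [← Real.cos_pi_div_three]
    exact Real.cos_le_cos_of_nonneg_of_le_pi hθ.1.le (by linarith) hθ.2.le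
  have hcos2 : 0 ≤ Real.cos e := Real.cos_nonneg_of_neg_pi_div_two_le_of_le (by linarith)
    (by have := hθ.1; linarith)
  have hbase : 1 ≤ (2 * Real.cos θ + 2 * Real.cos e) ^ (2 * n) :=
    one_le_pow₀ (by linarith)
  have hlam0 : 0 < lam θ := lt_of_lt_of_le (by positivity) hl
  have h4 : c * e ≤ lam θ * (2 * Real.cos θ + 2 * Real.cos e) ^ (2 * n) := by
    calc c * e ≤ lam θ := hl
      _ = lam θ * 1 := (mul_one _).symm
      _ ≤ _ := mul_le_mul_of_nonneg_left hbase hlam0.le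
  have h5 : lam θ * (2 * Real.cos θ + 2 * Real.cos e) ^ (2 * n) ≤
      M * (2 * n ^ 2 * E * z θ ^ 2 + 2 * n ^ 2 * e ^ 2) := by
    have e1 : lam θ * (2 * Real.cos θ + 2 * Real.cos e) ^ (2 * n) =
        ∑ k ∈ Finset.range (4 * n + 1), (t θ).coeff k *
          (Real.cos (((k : ℝ) - 2 * n) * e) - Real.cosh (((k : ℝ) - 2 * n) * z θ)) := by
      simp only [mul_sub, Finset.sum_sub_distrib]
      rw [q1, q2, sub_zero]
    rw [e1]
    calc ∑ k ∈ Finset.range (4 * n + 1), (t θ).coeff k *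
          (Real.cos (((k : ℝ) - 2 * n) * e) - Real.cosh (((k : ℝ) - 2 * n) * z θ))
        ≤ ∑ k ∈ Finset.range (4 * n + 1), |(t θ).coeff k| *
          (2 * n ^ 2 * E * z θ ^ 2 + 2 * n ^ 2 * e ^ 2) := by
          refine Finset.sum_le_sum fun k hk => ?_
          refine (le_abs_self _).trans ?_
          rw [abs_mul]
          refine mul_le_mul_of_nonneg_left ?_ (abs_nonneg _)
          exact k976_quad (by have := Finset.mem_range.1 hk; omega) hz0.le hz1
      _ = (∑ k ∈ Finset.range (4 * n + 1), |(t θ).coeff k|) *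
          (2 * n ^ 2 * E * z θ ^ 2 + 2 * n ^ 2 * e ^ 2) := by rw [Finset.sum_mul]
      _ ≤ _ := mul_le_mul_of_nonneg_right hs.le (by positivity)
  have h6 : e < c / (4 * M * n ^ 2) := by linarith
  rw [lt_div_iff₀ (by positivity)] at h6
  have h7 : M * (2 * n ^ 2 * e ^ 2) ≤ c / 2 * e := by nlinarith
  have h8 : c / 2 * e ≤ M * (2 * n ^ 2 * E * z θ ^ 2) := by nlinarith
  rw [div_mul_eq_mul_div, div_le_iff₀ (by positivity)]
  nlinarith

/-- the roots of `phi` -/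
lemma k976_phi_map (n : ℕ) (θ : ℝ) : (phi n θ).map (algebraMap ℝ ℂ) =
    (X - C (-Complex.exp (θ * Complex.I))) ^ (2 * n) *
      (X - C (-Complex.exp (-(θ * Complex.I)))) ^ (2 * n) := by
  unfold phi
  rw [Polynomial.map_pow, ← mul_pow]
  congr 1
  simp only [Polynomial.map_add, Polynomial.map_one, Polynomial.map_mul, Polynomial.map_C,
    Polynomial.map_X, Polynomial.map_pow]
  have e1 : algebraMap ℝ ℂ (2 * Real.cos θ) =
      Complex.exp (θ * Complex.I) + Complex.exp (-(θ * Complex.I)) := by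
    rw [Complex.coe_algebraMap]
    push_cast
    rw [Complex.two_cos]
    congr 2
    ring
  have e2 : Complex.exp (θ * Complex.I) * Complex.exp (-(θ * Complex.I)) = 1 := by
    rw [← Complex.exp_add, add_neg_cancel, Complex.exp_zero]
  have e3 : (C (Complex.exp (θ * Complex.I)) * C (Complex.exp (-(θ * Complex.I))) : ℂ[X]) = 1 := by
    rw [← C_mul, e2, C_1]
  rw [e1, C_add, C_neg, C_neg]
  linear_combination -e3

lemma k976_PH {n : ℕ} {θ x : ℝ} {Q Q1 : ℝ[X]} (hQ : Q = (X + 1) * Q1) (hQ1 : Q1 ≠ 0) :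
    PH n θ Q x =
      2 * n * (1 - om ^ 2 * (-Complex.exp (θ * Complex.I)) / (x : ℂ)).arg +
      2 * n * (1 - om ^ 2 * (-Complex.exp (-(θ * Complex.I))) / (x : ℂ)).arg +
      (1 - om ^ 2 * (-1) / (x : ℂ)).arg +
      ((Q1.map (algebraMap ℝ ℂ)).roots.map fun ξ : ℂ => (1 - om ^ 2 * ξ / (x : ℂ)).arg).sum := by
  unfold PH
  have h1 : ((phi n θ * Q).map (algebraMap ℝ ℂ)) =
      ((X - C (-Complex.exp (θ * Complex.I))) ^ (2 * n) *
      (X - C (-Complex.exp (-(θ * Complex.I)))) ^ (2 * n)) *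
        ((X - C (-1)) * Q1.map (algebraMap ℝ ℂ)) := by
    rw [Polynomial.map_mul, k976_phi_map, hQ, Polynomial.map_mul]
    congr 2
    simp
  have hQ1' : Q1.map (algebraMap ℝ ℂ) ≠ 0 := Polynomial.map_ne_zero hQ1
  have a1 : (X - C (-Complex.exp (θ * Complex.I)) : ℂ[X]) ^ (2 * n) ≠ 0 :=
    pow_ne_zero _ (X_sub_C_ne_zero _)
  have a2 : (X - C (-Complex.exp (-(θ * Complex.I))) : ℂ[X]) ^ (2 * n) ≠ 0 :=
    pow_ne_zero _ (X_sub_C_ne_zero _)
  have a3 : (X - C (-1) : ℂ[X]) ≠ 0 := X_sub_C_ne_zero _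
  rw [h1, roots_mul (mul_ne_zero (mul_ne_zero a1 a2) (mul_ne_zero a3 hQ1')),
    roots_mul (mul_ne_zero a1 a2), roots_mul (mul_ne_zero a3 hQ1'), roots_pow, roots_pow,
    roots_X_sub_C, roots_X_sub_C, roots_X_sub_C, Multiset.map_add, Multiset.map_add,
    Multiset.map_add, Multiset.sum_add, Multiset.sum_add, Multiset.sum_add, Multiset.map_nsmul,
    Multiset.map_nsmul, Multiset.sum_nsmul, Multiset.sum_nsmul, Multiset.map_singleton,
    Multiset.map_singleton, Multiset.map_singleton, Multiset.sum_singleton,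
    Multiset.sum_singleton, Multiset.sum_singleton, nsmul_eq_mul, nsmul_eq_mul]
  push_cast
  ring

lemma k976_msum {f : ℂ → ℝ} {c ε : ℝ} (s : Multiset ℂ) (h : ∀ ξ ∈ s, |f ξ - c| ≤ ε) :
    |(s.map f).sum - Multiset.card s * c| ≤ Multiset.card s * ε := by
  induction s using Multiset.induction_on with
  | empty => simp
  | cons a s ih =>
    have h1 := h a (Multiset.mem_cons_self a s)
    have h2 := ih fun ξ hξ => h ξ (Multiset.mem_cons_of_mem hξ)
    rw [Multiset.map_cons, Multiset.sum_cons, Multiset.card_cons]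
    push_cast
    rw [abs_le] at h1 h2 ⊢
    constructor <;> nlinarith [h1.1, h1.2, h2.1, h2.2]

lemma k976_uu2 : om ^ 2 = -uu := by
  have h3 : Real.sqrt 3 * Real.sqrt 3 = 3 := Real.mul_self_sqrt (by norm_num)
  apply Complex.ext
  · simp [uu, om, pow_two, Complex.mul_re]
    nlinarith
  · simp [uu, om, pow_two, Complex.mul_im]
    ring

lemma k976_uuexp : uu = Complex.exp ((Real.pi / 3 : ℝ) * Complex.I) := by
  apply Complex.ext
  · rw [Complex.exp_ofReal_mul_I_re, Real.cos_pi_div_three]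
    rfl
  · rw [Complex.exp_ofReal_mul_I_im, Real.sin_pi_div_three]
    rfl

lemma k976_arg1 : (1 - uu * uu).arg = -(Real.pi / 6) := by
  have h3 : Real.sqrt 3 * Real.sqrt 3 = 3 := Real.mul_self_sqrt (by norm_num)
  have e : 1 - uu * uu = (Real.sqrt 3 : ℂ) * (Complex.cos ((-(Real.pi / 6) : ℝ) : ℂ) +
      Complex.sin ((-(Real.pi / 6) : ℝ) : ℂ) * Complex.I) := by
    rw [← Complex.ofReal_cos, ← Complex.ofReal_sin, Real.cos_neg, Real.sin_neg,
      Real.cos_pi_div_six, Real.sin_pi_div_six]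
    apply Complex.ext
    · simp [uu, Complex.mul_re]
      nlinarith
    · simp [uu, Complex.mul_im]
      ring
  rw [e, Complex.arg_mul_cos_add_sin_mul_I (by positivity)]
  constructor <;> linarith [Real.pi_pos]

lemma k976_arg2 : (1 - uu).arg = -(Real.pi / 3) := by
  have e : 1 - uu = ((1 : ℝ) : ℂ) * (Complex.cos ((-(Real.pi / 3) : ℝ) : ℂ) +
      Complex.sin ((-(Real.pi / 3) : ℝ) : ℂ) * Complex.I) := by
    rw [← Complex.ofReal_cos, ← Complex.ofReal_sin, Real.cos_neg, Real.sin_neg,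
      Real.cos_pi_div_three, Real.sin_pi_div_three]
    apply Complex.ext
    · simp [uu]
      norm_num
    · simp [uu]
  rw [e, Complex.arg_mul_cos_add_sin_mul_I one_pos]
  constructor <;> linarith [Real.pi_pos]

lemma k976_arg3 : (1 + uu).arg = Real.pi / 6 := by
  have h3 : Real.sqrt 3 * Real.sqrt 3 = 3 := Real.mul_self_sqrt (by norm_num)
  have e : 1 + uu = (Real.sqrt 3 : ℂ) * (Complex.cos ((Real.pi / 6 : ℝ) : ℂ) +
      Complex.sin ((Real.pi / 6 : ℝ) : ℂ) * Complex.I) := by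
    rw [← Complex.ofReal_cos, ← Complex.ofReal_sin,
      Real.cos_pi_div_six, Real.sin_pi_div_six]
    apply Complex.ext
    · simp [uu]
      nlinarith
    · simp [uu]
      ring
  rw [e, Complex.arg_mul_cos_add_sin_mul_I (by positivity)]
  constructor <;> linarith [Real.pi_pos]

lemma k976_slit {w : ℂ} (h : 0 < w.re) : w ∈ Complex.slitPlane :=
  Complex.mem_slitPlane_iff.2 (Or.inl h)

/-- the phase at the largest zero of `t` -/
lemma k976_phase {n : ℕ} {t Q : ℝ → ℝ[X]} {lam z : ℝ → ℝ} (hn : 1 ≤ n) (hF : Fam n t lam)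
    (hP : ∀ θ ∈ Set.Ioc 0 (Real.pi / 3), P1 n θ (t θ) (Q θ))
    (hQc : ∀ k, ContinuousOn (fun θ => (Q θ).coeff k) (Set.Ioc 0 (Real.pi / 3)))
    (hQ0 : Q (Real.pi / 3) = (X + 1) * (X - 1) ^ (2 * n - 1))
    (hZ : ∀ θ ∈ Set.Ioo 0 (Real.pi / 3), Zer n θ (t θ) (Q θ) (z θ)) :
    ∀ᶠ θ in 𝓝[Set.Ioo 0 (Real.pi / 3)] (Real.pi / 3),
      |PH n θ (Q θ) (Real.exp (z θ))| < Real.pi := by
  obtain ⟨hx, c, hc, hlow⟩ := k976_lower hn hF hZ
  set F := 𝓝[Set.Ioo 0 (Real.pi / 3)] (Real.pi / 3) with hFd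
  have hpi := Real.pi_pos
  have hmem : ∀ᶠ θ in F, θ ∈ Set.Ioo 0 (Real.pi / 3) := self_mem_nhdsWithin
  have hid : Tendsto (fun θ : ℝ => θ) F (𝓝 (Real.pi / 3)) :=
    tendsto_id.mono_left nhdsWithin_le_nhds
  have hz : Tendsto z F (𝓝 0) := by
    have h1 := (Real.continuousAt_log one_ne_zero).tendsto.comp hx
    simpa [Function.comp_def] using h1
  have hn0 : (0 : ℝ) < n := by exact_mod_cast hn
  set ε : ℝ := Real.pi / (24 * n) with hε
  have hε0 : 0 < ε := by positivity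
  have hxc : Tendsto (fun θ => ((Real.exp (z θ) : ℝ) : ℂ)) F (𝓝 1) := by
    have h1 := (Complex.continuous_ofReal.tendsto 1).comp hx
    rw [Complex.ofReal_one] at h1
    exact h1
  have hexp : Tendsto (fun θ : ℝ => Complex.exp (θ * Complex.I)) F (𝓝 uu) := by
    rw [k976_uuexp]
    have h1 : Continuous fun θ : ℝ => Complex.exp (θ * Complex.I) :=
      Complex.continuous_exp.comp (Complex.continuous_ofReal.mul continuous_const)
    exact (h1.tendsto (Real.pi / 3)).comp hid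
  -- first group of roots
  have hA : ∀ᶠ θ in F, |(1 - om ^ 2 * (-Complex.exp (θ * Complex.I)) /
      ((Real.exp (z θ) : ℝ) : ℂ)).arg - (-(Real.pi / 6))| < ε := by
    have h1 : Tendsto (fun θ : ℝ => 1 - om ^ 2 * (-Complex.exp (θ * Complex.I)) /
        ((Real.exp (z θ) : ℝ) : ℂ)) F (𝓝 (1 - om ^ 2 * (-uu) / 1)) :=
      tendsto_const_nhds.sub ((tendsto_const_nhds.mul hexp.neg).div hxc one_ne_zero)
    have e1 : (1 - om ^ 2 * (-uu) / 1 : ℂ) = 1 - uu * uu := by rw [k976_uu2]; ring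
    rw [e1] at h1
    have h2 : 0 < (1 - uu * uu).re := by
      have h3 : Real.sqrt 3 * Real.sqrt 3 = 3 := Real.mul_self_sqrt (by norm_num)
      simp [uu, Complex.mul_re]
      nlinarith
    have h4 := (Complex.continuousAt_arg (k976_slit h2)).tendsto.comp h1
    rw [k976_arg1] at h4
    have h5 := (Metric.tendsto_nhds.1 h4) ε hε0
    simpa only [Function.comp_def, Real.dist_eq] using h5
  -- second group of roots
  have hB : ∀ᶠ θ in F, |(1 - om ^ 2 * (-Complex.exp (-(θ * Complex.I))) /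
      ((Real.exp (z θ) : ℝ) : ℂ)).arg| < ε := by
    set v : ℝ → ℂ := fun θ => (1 - Complex.exp (((Real.pi / 3 - θ : ℝ) : ℂ) * Complex.I)) /
      ((Real.exp (z θ) - 1 : ℝ) : ℂ) with hv
    have hv0 : Tendsto v F (𝓝 0) := by
      have hb : ∀ᶠ θ in F, ‖v θ‖ ≤ z θ / c := by
        filter_upwards [hmem, hlow] with θ hθ hl
        have hz0 := (hZ θ hθ).z0pos
        have h1 : z θ ≤ Real.exp (z θ) - 1 := by linarith [Real.add_one_le_exp (z θ)]
        have h2 : ‖1 - Complex.exp (((Real.pi / 3 - θ : ℝ) : ℂ) * Complex.I)‖ ≤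
            Real.pi / 3 - θ := by
          rw [norm_sub_rev, mul_comm]
          have h3 := Real.norm_exp_I_mul_ofReal_sub_one_le (x := Real.pi / 3 - θ)
          rwa [Real.norm_eq_abs, abs_of_nonneg (by linarith [hθ.2])] at h3
        simp only [hv]
        rw [norm_div, Complex.norm_real, Real.norm_eq_abs, abs_of_pos (by linarith),
          div_le_div_iff₀ (by linarith) hc]
        nlinarith [mul_le_mul_of_nonneg_left h1 hz0.le, norm_nonneg
          (1 - Complex.exp (((Real.pi / 3 - θ : ℝ) : ℂ) * Complex.I))]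
      have hb0 : Tendsto (fun θ => z θ / c) F (𝓝 0) := by
        have := hz.div_const c
        rwa [zero_div] at this
      exact squeeze_zero_norm' hb hb0
    have h1 : Tendsto (fun θ => 1 + v θ) F (𝓝 (1 + 0)) := tendsto_const_nhds.add hv0
    rw [add_zero] at h1
    have h4 := (Complex.continuousAt_arg (k976_slit (w := 1) (by simp))).tendsto.comp h1
    rw [Complex.arg_one] at h4
    have h5 := (Metric.tendsto_nhds.1 h4) ε hε0
    filter_upwards [hmem, h5] with θ hθ h6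
    have hz0 := (hZ θ hθ).z0pos
    have hx1 : 1 < Real.exp (z θ) := Real.one_lt_exp_iff.2 hz0
    have e1 : om ^ 2 * (-Complex.exp (-(θ * Complex.I))) =
        Complex.exp (((Real.pi / 3 - θ : ℝ) : ℂ) * Complex.I) := by
      rw [k976_uu2, k976_uuexp, neg_mul_neg, ← Complex.exp_add]
      congr 1
      push_cast
      ring
    have e2 : 1 - om ^ 2 * (-Complex.exp (-(θ * Complex.I))) / ((Real.exp (z θ) : ℝ) : ℂ) =
        (((Real.exp (z θ) - 1) / Real.exp (z θ) : ℝ) : ℂ) * (1 + v θ) := by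
      rw [e1]
      simp only [hv]
      have n1 : ((Real.exp (z θ) : ℝ) : ℂ) ≠ 0 := by
        exact_mod_cast (Real.exp_pos (z θ)).ne'
      have n0 : ((Real.exp (z θ) - 1 : ℝ) : ℂ) ≠ 0 := by
        exact_mod_cast (by linarith : Real.exp (z θ) - 1 ≠ 0)
      have n3 : ((Real.exp (z θ) - 1 : ℝ) : ℂ) = ((Real.exp (z θ) : ℝ) : ℂ) - 1 := by
        push_cast; ring
      generalize Complex.exp (((Real.pi / 3 - θ : ℝ) : ℂ) * Complex.I) = E
      rw [Complex.ofReal_div, n3]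
      rw [n3] at n0
      generalize ((Real.exp (z θ) : ℝ) : ℂ) = W at n0 n1 ⊢
      field_simp
      ring
    rw [e2, Complex.arg_real_mul _ (by apply div_pos <;> linarith [Real.exp_pos (z θ)])]
    rw [Function.comp_apply, Real.dist_eq, sub_zero] at h6
    exact h6
  -- the root `-1`
  have hC : ∀ᶠ θ in F, |(1 - om ^ 2 * (-1) / ((Real.exp (z θ) : ℝ) : ℂ)).arg -
      (-(Real.pi / 3))| < ε := by
    have h1 : Tendsto (fun θ : ℝ => 1 - om ^ 2 * (-1) / ((Real.exp (z θ) : ℝ) : ℂ)) F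
        (𝓝 (1 - om ^ 2 * (-1) / 1)) :=
      tendsto_const_nhds.sub (tendsto_const_nhds.div hxc one_ne_zero)
    have e1 : (1 - om ^ 2 * (-1) / 1 : ℂ) = 1 - uu := by rw [k976_uu2]; ring
    rw [e1] at h1
    have h2 : 0 < (1 - uu).re := by
      simp [uu]
      norm_num
    have h4 := (Complex.continuousAt_arg (k976_slit h2)).tendsto.comp h1
    rw [k976_arg2] at h4
    have h5 := (Metric.tendsto_nhds.1 h4) ε hε0
    simpa only [Function.comp_def, Real.dist_eq] using h5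
  -- the positive roots
  obtain ⟨η, hη, hψ⟩ : ∃ η : ℝ, 0 < η ∧ ∀ s : ℝ, |s - 1| < η →
      |(1 + uu * s).arg - Real.pi / 6| < ε := by
    have h1 : Tendsto (fun s : ℝ => 1 + uu * (s : ℂ)) (𝓝 1) (𝓝 (1 + uu * ((1 : ℝ) : ℂ))) :=
      (continuous_const.add (continuous_const.mul Complex.continuous_ofReal)).tendsto 1
    rw [Complex.ofReal_one, mul_one] at h1
    have h2 : 0 < (1 + uu).re := by
      simp [uu]
      norm_num
    have h4 := (Complex.continuousAt_arg (k976_slit h2)).tendsto.comp h1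
    rw [k976_arg3] at h4
    obtain ⟨η, hη, h5⟩ := (Metric.tendsto_nhds_nhds.1 h4) ε hε0
    refine ⟨η, hη, fun s hs => ?_⟩
    have h6 := h5 (x := s) (by rw [Real.dist_eq]; exact hs)
    rwa [Function.comp_apply, Real.dist_eq] at h6
  have hco : ∀ k, Tendsto (fun θ => (Q θ).coeff k) F (𝓝 ((Q (Real.pi / 3)).coeff k)) := by
    intro k
    exact (hQc k (Real.pi / 3) ⟨by positivity, le_rfl⟩).mono_left
      (nhdsWithin_mono _ Set.Ioo_subset_Ioc_self)
  have hdeg : ∀ᶠ θ in F, (Q θ).natDegree ≤ 2 * n := by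
    filter_upwards [hmem] with θ hθ
    exact (hP θ ⟨hθ.1, hθ.2.le⟩).deg.le
  have hdeg0 : (Q (Real.pi / 3)).natDegree ≤ 2 * n :=
    (hP (Real.pi / 3) ⟨by positivity, le_rfl⟩).deg.le
  obtain ⟨κ, hκ, hb⟩ := k976_base_Q n hn (η / 2) (by linarith)
  rw [← hQ0] at hb
  have hroots := k976_roots_near Q (Q (Real.pi / 3)) hdeg hdeg0 hco (η / 2) κ hκ hb
  have hxη : ∀ᶠ θ in F, Real.exp (z θ) < 1 + η / 2 := hx.eventually (gt_mem_nhds (by linarith))
  filter_upwards [hmem, hA, hB, hC, hroots, hxη] with θ hθ a1 a2 a3 a4 a5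
  have hz0 := (hZ θ hθ).z0pos
  have hx1 : 1 < Real.exp (z θ) := Real.one_lt_exp_iff.2 hz0
  obtain ⟨Q1, hQ1, -, hr⟩ := (hZ θ hθ).Qfac
  have hp := hP θ ⟨hθ.1, hθ.2.le⟩
  have hQ1ne : Q1 ≠ 0 := by
    rintro rfl
    rw [mul_zero] at hQ1
    exact hp.monic.ne_zero hQ1
  have hX1 : (X + 1 : ℝ[X]) ≠ 0 := (monic_X_add_C (1 : ℝ)).ne_zero
  have hd1 : Q1.natDegree = 2 * n - 1 := by
    have h1 := hp.deg
    rw [hQ1, natDegree_mul hX1 hQ1ne] at h1
    have h2 : (X + 1 : ℝ[X]).natDegree = 1 := by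
      have := natDegree_X_add_C (1 : ℝ)
      simpa using this
    omega
  have hcard : Multiset.card (Q1.map (algebraMap ℝ ℂ)).roots = 2 * n - 1 := by
    rw [← (IsAlgClosed.splits (Q1.map (algebraMap ℝ ℂ))).natDegree_eq_card_roots,
      Polynomial.natDegree_map, hd1]
  have a6 : ∀ ξ ∈ (Q1.map (algebraMap ℝ ℂ)).roots,
      |(1 - om ^ 2 * ξ / ((Real.exp (z θ) : ℝ) : ℂ)).arg - Real.pi / 6| ≤ ε := by
    intro ξ hξ
    rw [mem_roots (Polynomial.map_ne_zero hQ1ne), IsRoot.def, eval_map_algebraMap] at hξ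
    obtain ⟨a, ha0, -, -, rfl⟩ := hr ξ hξ
    have hQa : (Q θ).eval a = 0 := by
      have h1 := Polynomial.aeval_algebraMap_apply_eq_algebraMap_eval (A := ℂ) a Q1
      have h2 : algebraMap ℝ ℂ (Q1.eval a) = 0 := by
        rw [← h1]
        exact hξ
      have h3 : Q1.eval a = 0 := by
        rw [Complex.coe_algebraMap] at h2
        exact_mod_cast h2
      rw [hQ1, eval_mul, h3, mul_zero]
    have h4 := a4 a ha0 hQa
    have e1 : (1 - om ^ 2 * (a : ℂ) / ((Real.exp (z θ) : ℝ) : ℂ)) =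
        1 + uu * ((a / Real.exp (z θ) : ℝ) : ℂ) := by
      rw [k976_uu2, Complex.ofReal_div]
      ring
    rw [e1]
    refine (hψ _ ?_).le
    have h5 : a / Real.exp (z θ) - 1 = (a - Real.exp (z θ)) / Real.exp (z θ) := by
      rw [sub_div, div_self (Real.exp_pos _).ne']
    rw [h5, abs_div, abs_of_pos (Real.exp_pos (z θ)), div_lt_iff₀ (Real.exp_pos _)]
    have h6 : |a - Real.exp (z θ)| < η := by
      rw [abs_lt] at h4 ⊢
      constructor <;> linarith [h4.1, h4.2]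
    nlinarith
  have a7 := k976_msum _ a6
  have hPH := k976_PH (n := n) (θ := θ) (x := Real.exp (z θ)) hQ1 hQ1ne
  rw [hcard] at a7
  have hcast : ((2 * n - 1 : ℕ) : ℝ) = 2 * n - 1 := by
    rw [Nat.cast_sub (by omega)]
    push_cast
    ring
  rw [hcast] at a7
  rw [hPH]
  set gA := (1 - om ^ 2 * (-Complex.exp (θ * Complex.I)) / ((Real.exp (z θ) : ℝ) : ℂ)).arg
  set gB := (1 - om ^ 2 * (-Complex.exp (-(θ * Complex.I))) / ((Real.exp (z θ) : ℝ) : ℂ)).arg
  set gC := (1 - om ^ 2 * (-1) / ((Real.exp (z θ) : ℝ) : ℂ)).arg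
  set gD := ((Q1.map (algebraMap ℝ ℂ)).roots.map
    fun ξ : ℂ => (1 - om ^ 2 * ξ / ((Real.exp (z θ) : ℝ) : ℂ)).arg).sum
  have hnε : n * ε = Real.pi / 24 := by
    rw [hε]
    field_simp
  rw [abs_lt] at a1 a2 a3 ⊢
  rw [abs_le] at a7
  have b1 := mul_lt_mul_of_pos_left a1.1 hn0
  have b2 := mul_lt_mul_of_pos_left a1.2 hn0
  have b3 := mul_lt_mul_of_pos_left a2.1 hn0
  have b4 := mul_lt_mul_of_pos_left a2.2 hn0
  have b5 : ε ≤ Real.pi / 24 := by
    have : (1 : ℝ) ≤ n := by exact_mod_cast hn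
    nlinarith
  constructor <;> nlinarith [a7.1, a7.2, a3.1, a3.2]

/-- **CL-NEAR** -/
theorem cl_near : S_near := by
  intro n t Q lam z hn hF hP hQc hQ0 hZ
  have h1 := k976_phase hn hF hP hQc hQ0 hZ
  have hpi := Real.pi_pos
  have h2 : ∀ᶠ θ in 𝓝[Set.Ioo 0 (Real.pi / 3)] (Real.pi / 3), Ord (t θ) (Q θ) (z θ) := by
    filter_upwards [h1, self_mem_nhdsWithin] with θ hph hθ
    by_contra hcon
    have hp := hP θ ⟨hθ.1, hθ.2.le⟩
    obtain ⟨y, hy1, hy2⟩ := k976_fail hp.monic hp.deg hn (hZ θ hθ) hcon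
    have hlev := (hZ θ hθ).lev (Real.exp (z θ)) (Real.exp_pos _)
      (by rw [(k976_tzero (hZ θ hθ)).1, zero_mul]) hph
    have htop : Tendsto (fun y => (Q θ).eval y) atTop atTop := by
      apply Polynomial.tendsto_atTop_of_leadingCoeff_nonneg
      · rw [← natDegree_pos_iff_degree_pos, hp.deg]
        omega
      · rw [hp.monic]
        norm_num
    obtain ⟨y', hy3, hy4⟩ := ((htop.eventually_gt_atTop 0).and (eventually_ge_atTop y)).exists
    obtain ⟨b, ⟨hb1, hb2⟩, hb3⟩ := intermediate_value_Icc hy4 (f := fun y => (Q θ).eval y)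
      (Q θ).continuous.continuousOn ⟨hy2.le, hy3.le⟩
    apply hlev b (by linarith)
    dsimp only at hb3
    rw [hb3, mul_zero]
  rw [nhdsWithin_Ioo_eq_nhdsLT (by positivity : (0 : ℝ) < Real.pi / 3)] at h2
  obtain ⟨l, hl, hsub⟩ := mem_nhdsLT_iff_exists_Ioo_subset.1 h2
  have hl' : l < Real.pi / 3 := hl
  refine ⟨Real.pi / 3 - l, by linarith, fun θ _ h3 h4 => ?_⟩
  exact hsub ⟨by linarith, h4⟩

end Near2

end W96CL
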