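import Pool.Agent.W96.CL.Stm

/-!
# CL-RAY: `t` has no zeros on the rays `arg = ± pi / 3`
-/

set_option autoImplicit false

open Polynomial Filter Topology

namespace W96CL

lemma k976_uu_conj : (starRingEnd ℂ) uu = uu⁻¹ := by
  have h0 : uu ≠ 0 := by
    intro h
    have := congrArg Complex.re h
    simp [uu] at this
  have h1 : (starRingEnd ℂ) uu * uu = 1 := by
    have h3 : Real.sqrt 3 * Real.sqrt 3 = 3 := Real.mul_self_sqrt (by norm_num)
    apply Complex.ext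
    · simp [uu, Complex.mul_re]
      nlinarith
    · simp [uu, Complex.mul_im]
      ring
  exact eq_inv_of_mul_eq_one_left h1

lemma k976_om : -om = uu⁻¹ := by
  rw [← k976_uu_conj]
  apply Complex.ext
  · simp [uu, om]
    norm_num
  · simp [uu, om]

lemma k976_om2 : -om ^ 2 = uu := by
  have h3 : Real.sqrt 3 * Real.sqrt 3 = 3 := Real.mul_self_sqrt (by norm_num)
  apply Complex.ext
  · simp [uu, om, pow_two, Complex.mul_re]
    nlinarith
  · simp [uu, om, pow_two, Complex.mul_im]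
    ring

lemma k976_phi (n : ℕ) (θ ρ : ℝ) (h0 : 0 < θ) (h1 : θ ≤ Real.pi / 3) (hρ : 0 < ρ) :
    aeval (ρ * uu : ℂ) (phi n θ) ≠ 0 := by
  unfold phi
  rw [map_pow]
  apply pow_ne_zero
  intro h
  have hc : 0 < Real.cos θ := Real.cos_pos_of_mem_Ioo ⟨by linarith [Real.pi_pos], by
    linarith [Real.pi_pos]⟩
  have h2 := congrArg Complex.im h
  simp [uu, pow_two, Complex.mul_im, Complex.mul_re] at h2
  rw [Complex.cos_ofReal_re] at h2
  have h3 : 0 < Real.sqrt 3 := Real.sqrt_pos.2 (by norm_num)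
  have h4 : 0 < Real.cos θ * (ρ * Real.sqrt 3) := by positivity
  have h5 : 0 < ρ * ρ * Real.sqrt 3 := by positivity
  nlinarith

/-- **CL-RAY** -/
theorem cl_ray : S_ray := by
  intro n θ t Q hn h0 h1 hP ρ hρ
  have hre : ∀ (p : ℝ[X]), aeval (ρ * uu⁻¹ : ℂ) p = (starRingEnd ℂ) (aeval (ρ * uu : ℂ) p) := by
    intro p
    rw [← Polynomial.aeval_conj, map_mul, Complex.conj_ofReal, k976_uu_conj]
  have key : aeval (ρ * uu : ℂ) t ≠ 0 := by
    intro ht
    have hV := hP.VQ (-(ρ : ℂ))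
    have e1 : om * (-(ρ : ℂ)) = ρ * uu⁻¹ := by rw [← k976_om]; ring
    have e2 : om ^ 2 * (-(ρ : ℂ)) = ρ * uu := by rw [← k976_om2]; ring
    rw [e1, e2, hre t, hre (phi n θ), ht, mul_zero] at hV
    have e3 : (starRingEnd ℂ) (aeval (ρ * uu : ℂ) (phi n θ)) * aeval (ρ * uu : ℂ) (phi n θ) =
        ((Complex.normSq (aeval (ρ * uu : ℂ) (phi n θ)) : ℝ) : ℂ) := by
      rw [mul_comm, Complex.mul_conj]
    have e4 : ∀ p : ℝ[X], aeval (-(ρ : ℂ)) p = ((p.eval (-ρ) : ℝ) : ℂ) := by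
      intro p
      have : (-(ρ : ℂ)) = ((-ρ : ℝ) : ℂ) := by push_cast; ring
      rw [this]
      exact Polynomial.aeval_algebraMap_apply_eq_algebraMap_eval (-ρ) p
    rw [e3, e4, e4] at hV
    have h5 : (0 : ℝ) = Complex.normSq (aeval (ρ * uu : ℂ) (phi n θ)) +
        3 * (phi n θ).eval (-ρ) * Q.eval (-ρ) ^ 2 := by exact_mod_cast hV
    have h6 : 0 < Complex.normSq (aeval (ρ * uu : ℂ) (phi n θ)) :=
      Complex.normSq_pos.2 (k976_phi n θ ρ h0 h1 hρ)
    have h7 : 0 ≤ (phi n θ).eval (-ρ) := by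
      unfold phi
      rw [eval_pow, pow_mul]
      exact pow_nonneg (sq_nonneg _) _
    have h8 : 0 ≤ 3 * (phi n θ).eval (-ρ) * Q.eval (-ρ) ^ 2 := by positivity
    linarith
  refine ⟨key, ?_⟩
  rw [hre t]
  intro h
  exact key ((map_eq_zero _).1 h)

end W96CL
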