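import Pool.Agent.W96.CL.Stm

/-!
# CL-NEAR: the ordering of the zeros near `θ = pi / 3`
-/

set_option autoImplicit false

open Polynomial Filter Topology

namespace W96CL

section Near

/-- zeros of a convergent family of polynomials are close to the zero `1` of the limit -/
lemma k976_roots_near {d : ℕ} {F : Filter ℝ} (P : ℝ → ℝ[X]) (P0 : ℝ[X])
    (hd : ∀ᶠ θ in F, (P θ).natDegree ≤ d) (hd0 : P0.natDegree ≤ d)
    (hc : ∀ k, Tendsto (fun θ => (P θ).coeff k) F (𝓝 (P0.coeff k))) (ε κ : ℝ) (hκ : 0 < κ)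
    (hP0 : ∀ y : ℝ, 0 < y → ε ≤ |y - 1| → κ * (1 + y) ^ d ≤ |P0.eval y|) :
    ∀ᶠ θ in F, ∀ y : ℝ, 0 < y → (P θ).eval y = 0 → |y - 1| < ε := by
  have h1 : Tendsto (fun θ => ∑ k ∈ Finset.range (d + 1), |(P θ).coeff k - P0.coeff k|) F
      (𝓝 0) := by
    have : (0 : ℝ) = ∑ k ∈ Finset.range (d + 1), |P0.coeff k - P0.coeff k| := by simp
    rw [this]
    exact tendsto_finsetSum _ fun k _ => ((hc k).sub_const _).abs
  filter_upwards [hd, h1.eventually (gt_mem_nhds hκ)] with θ hdθ h2 y hy h0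
  by_contra hcon
  push Not at hcon
  have h3 := hP0 y hy hcon
  have h4 : |P0.eval y| ≤
      (∑ k ∈ Finset.range (d + 1), |(P θ).coeff k - P0.coeff k|) * (1 + y) ^ d := by
    have h5 : P0.eval y = -∑ k ∈ Finset.range (d + 1), ((P θ).coeff k - P0.coeff k) * y ^ k := by
      have e1 := Polynomial.eval_eq_sum_range' (Nat.lt_succ_of_le hdθ) y
      have e2 := Polynomial.eval_eq_sum_range' (Nat.lt_succ_of_le hd0) y
      rw [h0] at e1
      rw [e2]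
      simp only [sub_mul, Finset.sum_sub_distrib]
      simp only [Nat.succ_eq_add_one] at e1 ⊢
      rw [← e1]
      ring
    rw [h5, abs_neg, Finset.sum_mul]
    refine (Finset.abs_sum_le_sum_abs _ _).trans (Finset.sum_le_sum fun k hk => ?_)
    rw [abs_mul]
    refine mul_le_mul_of_nonneg_left ?_ (abs_nonneg _)
    rw [abs_of_nonneg (by positivity)]
    have hk' : k ≤ d := by
      have := Finset.mem_range.1 hk
      omega
    calc y ^ k ≤ (1 + y) ^ k := pow_le_pow_left₀ hy.le (by linarith) k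
      _ ≤ (1 + y) ^ d := pow_le_pow_right₀ (by linarith) hk'
  have h6 : 0 < (1 + y) ^ d := by positivity
  have h7 := mul_lt_mul_of_pos_right h2 h6
  linarith

lemma k976_abs (ε y : ℝ) (hε : 0 < ε) (hy : 0 < y) (h : ε ≤ |y - 1|) :
    ε / (2 + ε) * (1 + y) ≤ |y - 1| := by
  rw [div_mul_eq_mul_div, div_le_iff₀ (by linarith)]
  rcases abs_cases (y - 1) with ⟨h1, h2⟩ | ⟨h1, h2⟩
  · rw [h1] at h ⊢
    nlinarith
  · rw [h1] at h ⊢
    nlinarith

/-- the limit of `t` is large away from `1` -/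
lemma k976_base_t (n : ℕ) (hn : 1 ≤ n) (ε : ℝ) (hε : 0 < ε) : ∃ κ : ℝ, 0 < κ ∧
    ∀ y : ℝ, 0 < y → ε ≤ |y - 1| → κ * (1 + y) ^ (4 * n) ≤
      |(C (-2) * (1 - X) ^ 2 * (1 + X + X ^ 2) ^ (2 * n - 1) : ℝ[X]).eval y| := by
  refine ⟨2 * (ε / (2 + ε)) ^ 2 * (3 / 4) ^ (2 * n - 1), by positivity, ?_⟩
  intro y hy h
  have h1 := k976_abs ε y hε hy h
  have e1 : (C (-2) * (1 - X) ^ 2 * (1 + X + X ^ 2) ^ (2 * n - 1) : ℝ[X]).eval y =
      (-2) * (1 - y) ^ 2 * (1 + y + y ^ 2) ^ (2 * n - 1) := by simp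
  rw [e1, abs_mul, abs_mul, abs_neg, abs_pow, abs_pow]
  have h2 : |(2 : ℝ)| = 2 := abs_of_pos (by norm_num)
  have h3 : |1 - y| = |y - 1| := abs_sub_comm _ _
  have h4 : |1 + y + y ^ 2| = 1 + y + y ^ 2 := abs_of_pos (by positivity)
  rw [h2, h3, h4]
  have h5 : (1 + y) ^ (4 * n) = (1 + y) ^ 2 * ((1 + y) ^ 2) ^ (2 * n - 1) := by
    rw [← pow_mul, ← pow_add]
    congr 1
    omega
  have h6 : (ε / (2 + ε)) ^ 2 * (1 + y) ^ 2 ≤ |y - 1| ^ 2 := by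
    rw [← mul_pow]
    exact pow_le_pow_left₀ (by positivity) h1 2
  have h7 : (3 / 4 : ℝ) ^ (2 * n - 1) * ((1 + y) ^ 2) ^ (2 * n - 1) ≤
      (1 + y + y ^ 2) ^ (2 * n - 1) := by
    rw [← mul_pow]
    refine pow_le_pow_left₀ (by positivity) ?_ _
    nlinarith [sq_nonneg (1 - y)]
  rw [h5]
  calc 2 * (ε / (2 + ε)) ^ 2 * (3 / 4) ^ (2 * n - 1) * ((1 + y) ^ 2 * ((1 + y) ^ 2) ^ (2 * n - 1))
      = 2 * ((ε / (2 + ε)) ^ 2 * (1 + y) ^ 2) *
        ((3 / 4) ^ (2 * n - 1) * ((1 + y) ^ 2) ^ (2 * n - 1)) := by ring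
    _ ≤ 2 * |y - 1| ^ 2 * (1 + y + y ^ 2) ^ (2 * n - 1) := by gcongr

/-- the limit of `Q` is large away from `1` -/
lemma k976_base_Q (n : ℕ) (hn : 1 ≤ n) (ε : ℝ) (hε : 0 < ε) : ∃ κ : ℝ, 0 < κ ∧
    ∀ y : ℝ, 0 < y → ε ≤ |y - 1| → κ * (1 + y) ^ (2 * n) ≤
      |((X + 1) * (X - 1) ^ (2 * n - 1) : ℝ[X]).eval y| := by
  refine ⟨(ε / (2 + ε)) ^ (2 * n - 1), by positivity, ?_⟩
  intro y hy h
  have h1 := k976_abs ε y hε hy h
  have e1 : ((X + 1) * (X - 1) ^ (2 * n - 1) : ℝ[X]).eval y =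
      (y + 1) * (y - 1) ^ (2 * n - 1) := by simp
  rw [e1, abs_mul, abs_pow, abs_of_pos (by linarith : 0 < y + 1)]
  have h5 : (1 + y) ^ (2 * n) = (1 + y) * (1 + y) ^ (2 * n - 1) := by
    rw [← pow_succ']
    congr 1
    omega
  rw [h5]
  have h6 : (ε / (2 + ε)) ^ (2 * n - 1) * (1 + y) ^ (2 * n - 1) ≤ |y - 1| ^ (2 * n - 1) := by
    rw [← mul_pow]
    exact pow_le_pow_left₀ (by positivity) h1 _
  calc (ε / (2 + ε)) ^ (2 * n - 1) * ((1 + y) * (1 + y) ^ (2 * n - 1))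
      = (1 + y) * ((ε / (2 + ε)) ^ (2 * n - 1) * (1 + y) ^ (2 * n - 1)) := by ring
    _ ≤ (1 + y) * |y - 1| ^ (2 * n - 1) := by gcongr
    _ = (y + 1) * |y - 1| ^ (2 * n - 1) := by ring

/-- value of `t` at `e^{i e}` -/
lemma k976_eq1 {n : ℕ} {θ lam : ℝ} {t : ℝ[X]} (hd : t.natDegree ≤ 4 * n)
    (h : aeval (Complex.exp ((Real.pi / 3 - θ : ℝ) * Complex.I)) t
      = (lam : ℂ) * aeval (Complex.exp ((Real.pi / 3 - θ : ℝ) * Complex.I)) (phi n θ)) :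
    lam * (2 * Real.cos θ + 2 * Real.cos (Real.pi / 3 - θ)) ^ (2 * n) =
      ∑ k ∈ Finset.range (4 * n + 1),
        t.coeff k * Real.cos (((k : ℝ) - 2 * n) * (Real.pi / 3 - θ)) := by
  set e : ℝ := Real.pi / 3 - θ with he
  set ζ : ℂ := Complex.exp ((e : ℝ) * Complex.I) with hζ
  have hζ0 : ζ ≠ 0 := Complex.exp_ne_zero _
  have h1 : aeval ζ t = ∑ k ∈ Finset.range (4 * n + 1), (t.coeff k : ℂ) * ζ ^ k := by
    rw [Polynomial.aeval_eq_sum_range' (Nat.lt_succ_of_le hd)]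
    refine Finset.sum_congr rfl fun k _ => ?_
    rw [Algebra.smul_def]
    rfl
  have hinv : ζ⁻¹ = Complex.exp (-((e : ℝ) * Complex.I)) := by rw [hζ, Complex.exp_neg]
  have hsum : ζ + ζ⁻¹ = 2 * Real.cos e := by
    rw [hinv, hζ]
    have := Complex.two_cos (e : ℂ)
    rw [Complex.ofReal_cos, this]
    congr 2
    ring
  have h2 : aeval ζ (phi n θ) =
      ζ ^ (2 * n) * (((2 * Real.cos θ + 2 * Real.cos e) ^ (2 * n) : ℝ) : ℂ) := by
    unfold phi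
    rw [map_pow, Complex.ofReal_pow, ← mul_pow]
    congr 1
    rw [map_add, map_add, map_mul, map_pow, map_one, aeval_X, aeval_C]
    have e1 : ((2 * Real.cos θ + 2 * Real.cos e : ℝ) : ℂ) =
        2 * Real.cos θ + (ζ + ζ⁻¹) := by rw [hsum]; push_cast; ring
    rw [e1]
    have e2 : algebraMap ℝ ℂ (2 * Real.cos θ) = 2 * Real.cos θ := by
      rw [Complex.coe_algebraMap]
      push_cast
      ring
    rw [e2]
    field_simp
    ring
  rw [h1, h2] at h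
  have h3 : ∑ k ∈ Finset.range (4 * n + 1), (t.coeff k : ℂ) * (ζ ^ k * (ζ⁻¹) ^ (2 * n)) =
      (lam : ℂ) * (((2 * Real.cos θ + 2 * Real.cos e) ^ (2 * n) : ℝ) : ℂ) := by
    have h4 := congrArg (fun w => w * (ζ⁻¹) ^ (2 * n)) h
    simp only [Finset.sum_mul] at h4
    rw [Finset.sum_congr rfl fun k _ => (mul_assoc ((t.coeff k : ℂ)) (ζ ^ k) _).symm, h4]
    have h5 : ζ ^ (2 * n) * (ζ⁻¹) ^ (2 * n) = 1 := by
      rw [← mul_pow, mul_inv_cancel₀ hζ0, one_pow]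
    linear_combination ((lam : ℂ) * (((2 * Real.cos θ + 2 * Real.cos e) ^ (2 * n) : ℝ) : ℂ)) * h5
  have h6 : ∀ k : ℕ, ζ ^ k * (ζ⁻¹) ^ (2 * n) =
      Complex.exp (((((k : ℝ) - 2 * n) * e : ℝ) : ℂ) * Complex.I) := by
    intro k
    rw [hinv, hζ, ← Complex.exp_nat_mul, ← Complex.exp_nat_mul, ← Complex.exp_add]
    congr 1
    push_cast
    ring
  have h7 := congrArg Complex.re h3
  rw [Complex.re_sum] at h7
  have h8 : ((lam : ℂ) * (((2 * Real.cos θ + 2 * Real.cos e) ^ (2 * n) : ℝ) : ℂ)).re =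
      lam * (2 * Real.cos θ + 2 * Real.cos e) ^ (2 * n) := by
    rw [← Complex.ofReal_mul, Complex.ofReal_re]
  rw [h8] at h7
  rw [← h7]
  refine Finset.sum_congr rfl fun k _ => ?_
  rw [h6, Complex.re_ofReal_mul, Complex.exp_ofReal_mul_I_re]

/-- value of `t` at `e^z` -/
lemma k976_eq2 {n : ℕ} {z : ℝ} {t : ℝ[X]} (hd : t.natDegree ≤ 4 * n)
    (h : t.eval (Real.exp z) = 0) (h' : t.eval (Real.exp (-z)) = 0) :
    ∑ k ∈ Finset.range (4 * n + 1), t.coeff k * Real.cosh (((k : ℝ) - 2 * n) * z) = 0 := by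
  have key : ∀ w : ℝ, t.eval (Real.exp w) = 0 →
      ∑ k ∈ Finset.range (4 * n + 1), t.coeff k * Real.exp (((k : ℝ) - 2 * n) * w) = 0 := by
    intro w hw
    rw [Polynomial.eval_eq_sum_range' (Nat.lt_succ_of_le hd)] at hw
    have h4 := congrArg (fun v => v * Real.exp (-(2 * n * w))) hw
    simp only [Finset.sum_mul, zero_mul] at h4
    rw [← h4]
    refine Finset.sum_congr rfl fun k _ => ?_
    rw [mul_assoc, ← Real.exp_nat_mul, ← Real.exp_add]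
    congr 2
    ring
  have a1 := key z h
  have a2 := key (-z) h'
  have a3 : ∑ k ∈ Finset.range (4 * n + 1), t.coeff k * Real.cosh (((k : ℝ) - 2 * n) * z) =
      (∑ k ∈ Finset.range (4 * n + 1), t.coeff k * Real.exp (((k : ℝ) - 2 * n) * z) +
      ∑ k ∈ Finset.range (4 * n + 1), t.coeff k * Real.exp (((k : ℝ) - 2 * n) * (-z))) / 2 := by
    rw [← Finset.sum_add_distrib, Finset.sum_div]
    refine Finset.sum_congr rfl fun k _ => ?_
    rw [Real.cosh_eq]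
    have : ((k : ℝ) - 2 * n) * (-z) = -(((k : ℝ) - 2 * n) * z) := by ring
    rw [this]
    ring
  rw [a3, a1, a2]
  norm_num

/-- `cosh - cos` is quadratic -/
lemma k976_quad {n k : ℕ} (hk : k ≤ 4 * n) {z e : ℝ} (hz0 : 0 ≤ z) (hz1 : z ≤ 1) :
    |Real.cos (((k : ℝ) - 2 * n) * e) - Real.cosh (((k : ℝ) - 2 * n) * z)| ≤
      2 * n ^ 2 * Real.exp (2 * n ^ 2) * z ^ 2 + 2 * n ^ 2 * e ^ 2 := by
  set a : ℝ := (k : ℝ) - 2 * n with ha
  have hk' : (k : ℝ) ≤ 4 * n := by exact_mod_cast hk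
  have hk0 : (0 : ℝ) ≤ k := by positivity
  have ha2 : a ^ 2 ≤ (2 * n) ^ 2 := by
    rw [ha]
    nlinarith
  have h1 : 1 - (a * e) ^ 2 / 2 ≤ Real.cos (a * e) := Real.one_sub_sq_div_two_le_cos
  have h2 : Real.cos (a * e) ≤ 1 := Real.cos_le_one _
  have h3 : 1 ≤ Real.cosh (a * z) := Real.one_le_cosh _
  have h4 : Real.cosh (a * z) ≤ Real.exp ((a * z) ^ 2 / 2) := Real.cosh_le_exp_half_sq _
  have h5 : (a * z) ^ 2 / 2 ≤ 2 * n ^ 2 * z ^ 2 := by
    have : (a * z) ^ 2 = a ^ 2 * z ^ 2 := by ring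
    rw [this]
    nlinarith [mul_le_mul_of_nonneg_right ha2 (sq_nonneg z)]
  have h6 : 2 * (n : ℝ) ^ 2 * z ^ 2 ≤ 2 * n ^ 2 := by
    have : z ^ 2 ≤ 1 := by nlinarith
    nlinarith [mul_le_mul_of_nonneg_left this (by positivity : (0 : ℝ) ≤ 2 * n ^ 2)]
  set v : ℝ := (a * z) ^ 2 / 2 with hv
  have hv0 : 0 ≤ v := by positivity
  have h7 : Real.exp v - 1 ≤ v * Real.exp v := by
    have := Real.add_one_le_exp (-v)
    have h8 : Real.exp (-v) * Real.exp v = 1 := by rw [← Real.exp_add]; simp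
    nlinarith [Real.exp_pos v]
  have h9 : v * Real.exp v ≤ 2 * n ^ 2 * z ^ 2 * Real.exp (2 * n ^ 2) :=
    mul_le_mul h5 (Real.exp_le_exp.2 (by linarith)) (Real.exp_pos _).le (by positivity)
  have h10 : (a * e) ^ 2 / 2 ≤ 2 * n ^ 2 * e ^ 2 := by
    have : (a * e) ^ 2 = a ^ 2 * e ^ 2 := by ring
    rw [this]
    nlinarith [mul_le_mul_of_nonneg_right ha2 (sq_nonneg e)]
  rw [abs_le]
  constructor <;> nlinarith

end Near

end W96CL
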